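import Pool.Agent.Helper79.GL4.GoalsR

/-!
# GL4, packet SC: constituents of permutation characters
-/

set_option linter.unusedVariables false

namespace Pool.Agent.Helper35.GL4P

open _root_.GL4 Module Submodule
open scoped ComplexOrder

variable {G : Type} [Group G]

theorem ip_sum_left [Finite G] (K : Subgroup G) (I : Finset (G → ℂ)) (m : (G → ℂ) → ℕ)
    (f : G → ℂ) :
    ip K (∑ χ ∈ I, (m χ : ℂ) • χ) f = ∑ χ ∈ I, (m χ : ℂ) * ip K χ f := by
  classical
  have : Fintype K := Fintype.ofFinite K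
  unfold ip
  simp only [finsum_eq_sum_of_fintype, Finset.sum_apply, Pi.smul_apply, smul_eq_mul]
  simp_rw [Finset.sum_mul, Finset.mul_sum]
  rw [Finset.sum_comm]
  refine Finset.sum_congr rfl fun χ _ => Finset.sum_congr rfl fun g _ => ?_
  ring

theorem ip_sum_right [Finite G] (K : Subgroup G) (I : Finset (G → ℂ)) (m : (G → ℂ) → ℕ)
    (f : G → ℂ) :
    ip K f (∑ χ ∈ I, (m χ : ℂ) • χ) = ∑ χ ∈ I, (m χ : ℂ) * ip K f χ := by
  classical
  have : Fintype K := Fintype.ofFinite K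
  unfold ip
  simp only [finsum_eq_sum_of_fintype, Finset.sum_apply, Pi.smul_apply, smul_eq_mul, map_sum,
    map_mul, map_natCast]
  simp_rw [Finset.mul_sum]
  rw [Finset.sum_comm]
  refine Finset.sum_congr rfl fun χ _ => Finset.sum_congr rfl fun g _ => ?_
  ring

theorem ip_one_one [Finite G] (K : Subgroup G) : ip K (1 : G → ℂ) 1 = 1 := by
  classical
  have : Fintype K := Fintype.ofFinite K
  unfold ip
  simp only [finsum_eq_sum_of_fintype, Pi.one_apply, map_one, mul_one, Finset.sum_const,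
    Finset.card_univ, nsmul_eq_mul, Nat.card_eq_fintype_card]
  have : (Fintype.card K : ℂ) ≠ 0 := by exact_mod_cast Fintype.card_ne_zero
  field_simp

theorem orb_top (X : Type) [MulAction G X] : orb (⊤ : Subgroup G) X = orb G X := by
  unfold orb
  refine Nat.card_congr (Quotient.congr (Equiv.refl X) ?_)
  intro x y
  simp only [Equiv.refl_apply]
  constructor
  · rintro ⟨g, hg⟩; exact ⟨(g : G), hg⟩
  · rintro ⟨g, hg⟩; exact ⟨⟨g, Subgroup.mem_top g⟩, hg⟩

theorem pc_unit : pc G Unit = 1 := by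
  funext g
  have : MulAction.fixedBy Unit g = Set.univ := by
    ext x; simp [MulAction.mem_fixedBy]
  unfold pc
  rw [this]
  simp

/-- the data of all irreducible characters, together with the multiplicities -/
structure Dat (G : Type) [Group G] where
  I : Finset (G → ℂ)
  hI : ∀ χ, χ ∈ I ↔ IsIrr χ
  nat : ∀ χ ∈ I, ∀ K : Subgroup G, ∃ m : ℕ, ip K χ 1 = m
  one : ip ⊤ (1 : G → ℂ) 1 = 1
  oneI : (1 : G → ℂ) ∈ I
  ort : ∀ χ ∈ I, ∀ χ' ∈ I, χ ≠ χ' → ip ⊤ χ χ' = 0
  nor : ∀ χ ∈ I, ip ⊤ χ χ = 1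
  mul : ∀ (X : Type) [Finite X] [MulAction G X], ∃ m : (G → ℂ) → ℕ,
    pc G X = ∑ χ ∈ I, (m χ : ℂ) • χ

theorem ip_mult [Finite G] (D : Dat G) {X : Type} [Finite X] [MulAction G X] {m : (G → ℂ) → ℕ}
    (hm : pc G X = ∑ χ ∈ D.I, (m χ : ℂ) • χ) {χ : G → ℂ} (hχ : χ ∈ D.I) :
    ip ⊤ (pc G X) χ = m χ := by
  classical
  rw [hm, ip_sum_left, Finset.sum_eq_single χ]
  · rw [D.nor χ hχ, mul_one]
  · intro b hb hbc; rw [D.ort b hb χ hχ hbc, mul_zero]
  · intro h; exact absurd hχ h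

theorem orb_prod [Finite G] (hP : PCH) (D : Dat G) {X Y : Type} [Finite X] [MulAction G X]
    [Finite Y] [MulAction G Y] {m m' : (G → ℂ) → ℕ}
    (hm : pc G X = ∑ χ ∈ D.I, (m χ : ℂ) • χ) (hm' : pc G Y = ∑ χ ∈ D.I, (m' χ : ℂ) • χ) :
    orb G (X × Y) = ∑ χ ∈ D.I, m χ * m' χ := by
  classical
  have h1 := (hP G X).2.2 Y
  have h2 : ip ⊤ (pc G X) (pc G Y) = ∑ χ ∈ D.I, (m' χ : ℂ) * m χ := by
    conv_lhs => rw [hm']
    rw [ip_sum_right]
    exact Finset.sum_congr rfl fun χ hχ => by rw [ip_mult D hm hχ]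
  rw [h2] at h1
  have h3 : ((orb G (X × Y) : ℕ) : ℂ) = ((∑ χ ∈ D.I, m χ * m' χ : ℕ) : ℂ) := by
    rw [← h1]; push_cast
    exact Finset.sum_congr rfl fun χ _ => mul_comm _ _
  exact_mod_cast h3

theorem orb_one [Finite G] (hP : PCH) (D : Dat G) {X : Type} [Finite X] [MulAction G X]
    {m : (G → ℂ) → ℕ} (hm : pc G X = ∑ χ ∈ D.I, (m χ : ℂ) • χ) :
    orb G X = m 1 := by
  have h1 := (hP G X).2.1 ⊤
  rw [ip_mult D hm D.oneI, orb_top] at h1
  exact_mod_cast h1.symm

theorem exists_dat [Finite G] (hC : CH) (hP : PCH) : Nonempty (Dat G) := by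
  classical
  obtain ⟨I, h1, h2, h3, h4⟩ := hC G
  have hmul : ∀ (X : Type) [Finite X] [MulAction G X], ∃ m : (G → ℂ) → ℕ,
      pc G X = ∑ χ ∈ I, (m χ : ℂ) • χ := by
    intro X _ _
    obtain ⟨⟨V, _, _, _, ρ, hρ⟩, -, -⟩ := hP G X
    obtain ⟨m, hm⟩ := h4 V ρ
    exact ⟨m, by rw [← hρ, hm]⟩
  have hone : (1 : G → ℂ) ∈ I := by
    obtain ⟨m, hm⟩ := hmul Unit
    rw [pc_unit] at hm
    have e1 : ∀ χ ∈ I, ip ⊤ (1 : G → ℂ) χ = m χ := by
      intro χ hχ
      rw [hm, ip_sum_left, Finset.sum_eq_single χ]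
      · rw [h3 χ hχ χ hχ, if_pos rfl, mul_one]
      · intro b hb hbc; rw [h3 b hb χ hχ, if_neg hbc, mul_zero]
      · intro h; exact absurd hχ h
    have e2 : ((∑ χ ∈ I, m χ * m χ : ℕ) : ℂ) = 1 := by
      have := ip_one_one (⊤ : Subgroup G)
      have h5 : ip ⊤ (1 : G → ℂ) (∑ χ ∈ I, (m χ : ℂ) • χ) = ∑ χ ∈ I, (m χ : ℂ) * m χ := by
        rw [ip_sum_right]
        exact Finset.sum_congr rfl fun χ hχ => by rw [e1 χ hχ]
      rw [← hm, this] at h5
      push_cast
      exact h5.symm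
    have e3 : ∑ χ ∈ I, m χ * m χ = 1 := by exact_mod_cast e2
    have e4 : ∃ χ ∈ I, m χ ≠ 0 := by
      by_contra hcon
      push Not at hcon
      rw [Finset.sum_eq_zero (fun χ hχ => by rw [hcon χ hχ, mul_zero])] at e3
      exact absurd e3 zero_ne_one
    obtain ⟨χ, hχ, hmχ⟩ := e4
    have e5 : m χ * m χ + ∑ b ∈ I.erase χ, m b * m b = 1 := by
      rw [Finset.add_sum_erase I (fun b => m b * m b) hχ, e3]
    have e6 : 1 ≤ m χ := Nat.one_le_iff_ne_zero.2 hmχ
    have e7 : 1 ≤ m χ * m χ := Nat.mul_le_mul e6 e6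
    have e8 : ∑ b ∈ I.erase χ, m b * m b = 0 := by omega
    have e9 : m χ = 1 := by nlinarith
    have e10 : ∀ b ∈ I, b ≠ χ → m b = 0 := by
      intro b hb hbχ
      have := (Finset.sum_eq_zero_iff.1 e8) b (Finset.mem_erase.2 ⟨hbχ, hb⟩)
      exact mul_self_eq_zero.1 this
    have e11 : (1 : G → ℂ) = χ := by
      rw [hm, Finset.sum_eq_single χ]
      · rw [e9]; simp
      · intro b hb hbχ; rw [e10 b hb hbχ]; simp
      · intro h; exact absurd hχ h
    rw [e11]; exact hχ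
  exact ⟨⟨I, h1, h2, ip_one_one _, hone, fun χ hχ χ' hχ' hne => by rw [h3 χ hχ χ' hχ', if_neg hne],
    fun χ hχ => by rw [h3 χ hχ χ hχ, if_pos rfl], hmul⟩⟩

theorem con_eq [Finite G] (D : Dat G) {X : Type} [Finite X] [MulAction G X] {m : (G → ℂ) → ℕ}
    (hm : pc G X = ∑ χ ∈ D.I, (m χ : ℂ) • χ) (χ : G → ℂ) :
    χ ∈ Con G X ↔ χ ∈ D.I ∧ χ ≠ 1 ∧ m χ ≠ 0 := by
  constructor
  · rintro ⟨h1, h2, h3⟩
    have h4 := (D.hI χ).2 h1
    refine ⟨h4, h2, fun h0 => h3 ?_⟩
    rw [ip_mult D hm h4, h0]; simp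
  · rintro ⟨h1, h2, h3⟩
    refine ⟨(D.hI χ).1 h1, h2, ?_⟩
    rw [ip_mult D hm h1]
    exact_mod_cast h3

open Classical in
/-- the constituents as a finite set -/
noncomputable def cf (D : Dat G) (m : (G → ℂ) → ℕ) : Finset (G → ℂ) :=
  (D.I.erase 1).filter fun χ => m χ ≠ 0

theorem con_coe [Finite G] (D : Dat G) {X : Type} [Finite X] [MulAction G X] {m : (G → ℂ) → ℕ}
    (hm : pc G X = ∑ χ ∈ D.I, (m χ : ℂ) • χ) : Con G X = ↑(cf D m) := by
  classical
  ext χ
  rw [con_eq D hm, Finset.mem_coe, cf, Finset.mem_filter, Finset.mem_erase]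
  tauto

theorem con_ncard [Finite G] (D : Dat G) {X : Type} [Finite X] [MulAction G X] {m : (G → ℂ) → ℕ}
    (hm : pc G X = ∑ χ ∈ D.I, (m χ : ℂ) • χ) : (Con G X).ncard = (cf D m).card := by
  rw [con_coe D hm, Set.ncard_coe_finset]

open Classical in
theorem sum_split (D : Dat G) (m m' : (G → ℂ) → ℕ) :
    ∑ χ ∈ D.I, m χ * m' χ = m 1 * m' 1 + ∑ χ ∈ D.I.erase 1, m χ * m' χ := by
  rw [Finset.add_sum_erase D.I (fun χ => m χ * m' χ) D.oneI]

theorem card_cf_le (D : Dat G) (m : (G → ℂ) → ℕ) :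
    (cf D m).card ≤ ∑ χ ∈ cf D m, m χ * m χ := by
  rw [Finset.card_eq_sum_ones]
  refine Finset.sum_le_sum fun χ hχ => ?_
  classical
  rw [cf, Finset.mem_filter] at hχ
  have : 1 ≤ m χ := Nat.one_le_iff_ne_zero.2 hχ.2
  exact Nat.mul_le_mul this this

open Classical in
theorem sum_cf (D : Dat G) (m m' : (G → ℂ) → ℕ) :
    ∑ χ ∈ D.I.erase 1, m χ * m' χ = ∑ χ ∈ cf D m, m χ * m' χ := by
  rw [cf, Finset.sum_filter]
  refine Finset.sum_congr rfl fun χ _ => ?_
  by_cases h : m χ = 0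
  · simp [h]
  · simp [h]

theorem sc (hC : CH) (hP : PCH) : SC := by
  classical
  intro G _ _
  obtain ⟨D⟩ := exists_dat (G := G) hC hP
  refine ⟨?_, ?_, ?_, ?_, ?_, ?_⟩
  · intro X _ _
    obtain ⟨m, hm⟩ := D.mul X
    rw [con_coe D hm]
    exact Finset.finite_toSet _
  · intro X _ _ h1 K hK
    obtain ⟨m, hm⟩ := D.mul X
    have e1 := (hP G X).2.1 K
    have e0 : m 1 = 1 := by rw [← orb_one hP D hm]; exact h1
    conv_lhs at e1 => rw [hm]
    rw [ip_sum_left, Finset.sum_eq_single 1] at e1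
    · rw [e0, ip_one_one] at e1
      simp only [Nat.cast_one, mul_one] at e1
      exact_mod_cast e1.symm
    · intro χ hχ hne
      by_cases h0 : m χ = 0
      · rw [h0]; simp
      · have := hK χ ((con_eq D hm χ).2 ⟨hχ, hne, h0⟩)
        obtain ⟨k, hk⟩ := D.nat χ hχ K
        rw [Marks, hk] at this
        have hk0 : k = 0 := by
          by_contra hk1
          apply this
          have : (0 : ℝ) < (k : ℝ) := by exact_mod_cast Nat.pos_of_ne_zero hk1
          have h2 := Complex.zero_lt_real.2 this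
          simpa using h2
        rw [hk, hk0]; simp
    · intro h; exact absurd D.oneI h
  · intro X Y _ _ _ _ hX hY hYY hXY
    obtain ⟨m, hm⟩ := D.mul X
    obtain ⟨m', hm'⟩ := D.mul Y
    have a1 : m 1 = 1 := by rw [← orb_one hP D hm]; exact hX
    have a2 : m' 1 = 1 := by rw [← orb_one hP D hm']; exact hY
    have b1 := orb_prod hP D hm' hm'
    rw [hYY, sum_split, sum_cf, a2] at b1
    have b2 := orb_prod hP D hm hm'
    rw [sum_split, a1, a2] at b2
    have b3 : ∑ χ ∈ D.I.erase 1, m χ * m' χ = ∑ χ ∈ cf D m', m χ * m' χ := by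
      have := sum_cf D m' m
      rw [Finset.sum_congr rfl (fun χ _ => mul_comm (m χ) (m' χ)), this]
      exact Finset.sum_congr rfl (fun χ _ => mul_comm _ _)
    rw [b3] at b2
    have b4 := card_cf_le D m'
    have b5 : (cf D m').card ≤ 1 := by omega
    rw [con_coe D hm']
    intro χ hχ
    have hχ' : χ ∈ cf D m' := hχ
    have b6 : cf D m' = {χ} := by
      refine Finset.eq_singleton_iff_unique_mem.2 ⟨hχ', fun y hy => ?_⟩
      exact Finset.card_le_one.1 b5 y hy χ hχ'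
    rw [b6, Finset.sum_singleton] at b2
    rw [cf, Finset.mem_filter, Finset.mem_erase] at hχ'
    refine (con_eq D hm χ).2 ⟨hχ'.1.2, hχ'.1.1, fun h0 => ?_⟩
    rw [h0] at b2
    omega
  · intro X Y _ _ _ _ hX hY hYY hXY hXX
    obtain ⟨m, hm⟩ := D.mul X
    obtain ⟨m', hm'⟩ := D.mul Y
    have a1 : m 1 = 1 := by rw [← orb_one hP D hm]; exact hX
    have a2 : m' 1 = 1 := by rw [← orb_one hP D hm']; exact hY
    have b1 := orb_prod hP D hm' hm'
    rw [hYY, sum_split, sum_cf, a2] at b1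
    have b2 := orb_prod hP D hm hm'
    rw [sum_split, a1, a2] at b2
    have b3 : ∑ χ ∈ D.I.erase 1, m χ * m' χ = ∑ χ ∈ cf D m', m χ * m' χ := by
      have := sum_cf D m' m
      rw [Finset.sum_congr rfl (fun χ _ => mul_comm (m χ) (m' χ)), this]
      exact Finset.sum_congr rfl (fun χ _ => mul_comm _ _)
    rw [b3] at b2
    have b4 := card_cf_le D m'
    have b5 : (cf D m').card ≤ 1 := by omega
    have c0 : (cf D m').Nonempty := by
      rw [Finset.nonempty_iff_ne_empty]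
      intro h; rw [h, Finset.sum_empty] at b2; omega
    obtain ⟨χ, hχ'⟩ := c0
    have b6 : cf D m' = {χ} := by
      refine Finset.eq_singleton_iff_unique_mem.2 ⟨hχ', fun y hy => ?_⟩
      exact Finset.card_le_one.1 b5 y hy χ hχ'
    rw [b6, Finset.sum_singleton] at b2 b1
    have c1 : m' χ = 1 := by
      have : m' χ * m' χ = 1 := by omega
      exact Nat.eq_one_of_mul_eq_one_left this
    rw [c1] at b2
    have c2 : 2 ≤ m χ := by omega
    have d1 := orb_prod hP D hm hm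
    rw [sum_split, sum_cf, a1] at d1
    have hmem : χ ∈ cf D m := by
      rw [cf, Finset.mem_filter, Finset.mem_erase] at hχ' ⊢
      exact ⟨hχ'.1, by omega⟩
    rw [← Finset.add_sum_erase (cf D m) (fun χ => m χ * m χ) hmem] at d1
    have d2 : 4 ≤ m χ * m χ := Nat.mul_le_mul c2 c2
    have d3 : ((cf D m).erase χ).card ≤ ∑ χ ∈ (cf D m).erase χ, m χ * m χ := by
      rw [Finset.card_eq_sum_ones]
      refine Finset.sum_le_sum fun b hb => ?_
      have hb' := (Finset.mem_erase.1 hb).2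
      rw [cf, Finset.mem_filter] at hb'
      have : 1 ≤ m b := Nat.one_le_iff_ne_zero.2 hb'.2
      exact Nat.mul_le_mul this this
    rw [con_ncard D hm]
    have d4 := Finset.card_erase_add_one hmem
    omega
  · intro X _ _ hX hXX
    obtain ⟨m, hm⟩ := D.mul X
    have a1 : m 1 = 1 := by rw [← orb_one hP D hm]; exact hX
    have d1 := orb_prod hP D hm hm
    rw [sum_split, sum_cf, a1] at d1
    have b4 := card_cf_le D m
    rw [con_ncard D hm]
    omega
  · intro X Y _ _ _ _ hX hY hXX hYY hXY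
    obtain ⟨m, hm⟩ := D.mul X
    obtain ⟨m', hm'⟩ := D.mul Y
    have a1 : m 1 = 1 := by rw [← orb_one hP D hm]; exact hX
    have a2 : m' 1 = 1 := by rw [← orb_one hP D hm']; exact hY
    have d1 := orb_prod hP D hm hm
    rw [sum_split, sum_cf, a1] at d1
    have d2 := orb_prod hP D hm' hm'
    rw [sum_split, sum_cf, a2] at d2
    have d3 := orb_prod hP D hm hm'
    rw [sum_split, sum_cf, a1, a2] at d3
    have b1 := card_cf_le D m
    have b2 := card_cf_le D m'
    have c0 : (cf D m ∩ cf D m').Nonempty := by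
      rw [Finset.nonempty_iff_ne_empty]
      intro h
      have : ∑ χ ∈ cf D m, m χ * m' χ = 0 := by
        refine Finset.sum_eq_zero fun χ hχ => ?_
        by_cases h0 : m' χ = 0
        · rw [h0, mul_zero]
        · exfalso
          have : χ ∈ cf D m ∩ cf D m' := by
            refine Finset.mem_inter.2 ⟨hχ, ?_⟩
            rw [cf, Finset.mem_filter] at hχ ⊢
            exact ⟨hχ.1, h0⟩
          rw [h] at this
          exact absurd this (Finset.notMem_empty _)
      omega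
    have c1 : 1 ≤ (cf D m ∩ cf D m').card := Finset.card_pos.2 c0
    have c2 := Finset.card_union_add_card_inter (cf D m) (cf D m')
    rw [con_coe D hm, con_coe D hm', ← Finset.coe_union, Set.ncard_coe_finset]
    omega

end Pool.Agent.Helper35.GL4P

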